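import Pool.Agent.MP_f7db47_al.TW.ODefs

/-!
Acyclic binary multicomplexes over the obstruction category, and Grayson's presentation of the
higher `K`-groups.
-/

namespace Pool.Agent.MP_f7db47_al.OB

universe v

/-- An object with a `ℤⁿ`-grading of its basis, a matrix `p`, and two matrices in each of the
`n` directions. -/
structure Mc (R : Type v) [Ring R] (G : Type) [Group G] (V : Type) (n : ℕ) :
    Type (max 1 v) where
  M : Obj V
  deg : M.I → Fin n → ℤ
  p : Matrix M.I M.I (MonoidAlgebra R G)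
  d : Fin n → Bool → Matrix M.I M.I (MonoidAlgebra R G)

variable {R : Type v} [Ring R] {G : Type} [Group G] {V : Type} [MulAction G V] {n : ℕ}

/-- Controlled morphisms from `N` to `M`: finitely many group elements occur, the matrix has
bounded propagation in the `ℕ` direction, and its propagation in `Δ(V)` tends to zero at
infinity. -/
def CtrlH (M N : Obj V) (a : Matrix M.I N.I (MonoidAlgebra R G)) : Prop :=
  (∃ F : Set G, F.Finite ∧ ∀ i j g, (a i j).coeff g ≠ 0 → g ∈ F) ∧
  (∃ α : ℕ, ∀ i j, a i j ≠ 0 → M.t i ≤ N.t j + α ∧ N.t j ≤ M.t i + α) ∧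
  ∀ ε : ℝ, 0 < ε → ∃ T : ℕ, ∀ i j g, (a i j).coeff g ≠ 0 → T ≤ M.t i →
    l1 (M.x i) ((N.x j).mapDomain fun v => g • v) < ε

/-- The product of infinite matrices. -/
noncomputable def mulR {I J K : Type} {Λ : Type v} [Ring Λ] (a : Matrix I J Λ) (b : Matrix J K Λ) :
    Matrix I K Λ := fun i k => ∑ᶠ j, a i j * b j k

/-- Controlled morphisms of degree `c` from the image of `Y.p` to the image of `X.p`. -/
structure Mc.Mor (X Y : Mc R G V n) (c : Fin n → ℤ)
    (a : Matrix X.M.I Y.M.I (MonoidAlgebra R G)) : Prop where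
  ctrl : CtrlH X.M Y.M a
  deg : ∀ i j, a i j ≠ 0 → X.deg i = Y.deg j + c
  pl : mulR X.p a = a
  pr : mulR a Y.p = a

/-- Bounded acyclic binary multicomplexes over the idempotent completion: finitely many degrees
occur, `p` is an idempotent of degree zero, `d s false` and `d s true` are contractible
differentials in direction `s`, and differentials in different directions commute. -/
structure Mc.IsAc (X : Mc R G V n) : Prop where
  bd : (Set.range X.deg).Finite
  hp : Mc.Mor X X 0 X.p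
  hd : ∀ s ε, Mc.Mor X X (-Pi.single s 1) (X.d s ε)
  dd : ∀ s ε, mulR (X.d s ε) (X.d s ε) = 0
  cm : ∀ s s' ε ε', s ≠ s' → mulR (X.d s ε) (X.d s' ε') = mulR (X.d s' ε') (X.d s ε)
  ac : ∀ s ε, ∃ h, Mc.Mor X X (Pi.single s 1) h ∧ mulR (X.d s ε) h + mulR h (X.d s ε) = X.p

/-- Morphisms of binary multicomplexes from `Y` to `X`. -/
def Mc.Hom (X Y : Mc R G V n) (a : Matrix X.M.I Y.M.I (MonoidAlgebra R G)) : Prop :=
  Mc.Mor X Y 0 a ∧ ∀ s ε, mulR (X.d s ε) a = mulR a (Y.d s ε)

/-- There is a sequence `X' → X → X''` that is split exact in each degree. -/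
def Mc.IsSes (X' X X'' : Mc R G V n) : Prop :=
  ∃ i q r s, Mc.Hom X X' i ∧ Mc.Hom X'' X q ∧ Mc.Mor X' X 0 r ∧ Mc.Mor X X'' 0 s ∧
    mulR r i = X'.p ∧ mulR q s = X''.p ∧ mulR i r + mulR s q = X.p

variable (R G V n) in
/-- The relations: short exact sequences, and diagonal multicomplexes. -/
def GRel : Set (FreeAbelianGroup (Mc R G V n)) :=
  {z | ∃ X' X X'' : Mc R G V n, X'.IsAc ∧ X.IsAc ∧ X''.IsAc ∧ X'.IsSes X X'' ∧
    z = FreeAbelianGroup.of X - FreeAbelianGroup.of X' - FreeAbelianGroup.of X''} ∪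
  {z | ∃ X : Mc R G V n, X.IsAc ∧ (∃ s, X.d s false = X.d s true) ∧ z = FreeAbelianGroup.of X}

variable (R G V n) in
/-- The group of Grayson in degree `n` vanishes. -/
def KZero : Prop :=
  ∀ X : Mc R G V n, X.IsAc → FreeAbelianGroup.of X ∈ AddSubgroup.closure (GRel R G V n)

end Pool.Agent.MP_f7db47_al.OB
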